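import Mathlib
import Pool.Agent.Helper76.FPP.Defs
import Pool.Agent.Helper76.FPP.Main

set_option autoImplicit false

namespace Pool.Agent.Results.MP_80cb54_al.AllValues

open Pool.Agent.Helper76.FPP

theorem result (d : ℕ) (hd : 2 ≤ d) (α : ℝ) (h0 : 0 ≤ α) (h1 : α ≤ 1) :
    ∃ a b : TreeAut d, Commute a b ∧ IsTopFG (Subgroup.closure {a, b}) ∧
      HasFPP (Subgroup.closure {a, b}) α := by
  obtain ⟨a, b, hab, h⟩ := Pool.Agent.Helper76.FPP.main d hd α h0 h1
  refine ⟨a, b, hab, ⟨_, le_rfl, ?_, @subset_closure _ (profiniteTopology d) _⟩, h⟩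
  exact (Subgroup.fg_iff _).2 ⟨{a, b}, rfl, Set.toFinite _⟩

end Pool.Agent.Results.MP_80cb54_al.AllValues
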