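import Mathlib
import Pool.Agent.Helper76.FPP.Defs
import Pool.Agent.Helper76.FPP.Trans

set_option autoImplicit false

namespace Pool.Agent.Results.MP_80cb54_al.LevelTransitiveBound

open Pool.Agent.Helper76.FPP

theorem result (d : ℕ) (hd : 2 ≤ d) (G : Subgroup (TreeAut d)) (hG : IsLevelTransitive G)
    (α : ℝ) (h : HasFPP G α) : α ≤ 1 - 1 / (d : ℝ) :=
  Pool.Agent.Helper76.FPP.trans_main d hd G hG α h

end Pool.Agent.Results.MP_80cb54_al.LevelTransitiveBound
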